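import Mathlib

/-!
# Module SA: random partitions with prescribed sizes that are typical for a family of sets
-/

set_option autoImplicit false

open Finset
open scoped Classical

namespace OT

noncomputable section

namespace SA

variable {V J : Type} [Fintype V] [Fintype J]

/-- Number of vertices of `F` with colour `j`. -/
def cnt (c : V → J) (F : Finset V) (j : J) : ℕ := ((univ.filter fun v => c v = j) ∩ F).card

theorem sum_prod_col (g : V → J → ℝ) :
    ∑ c : V → J, ∏ v, g v (c v) = ∏ v, ∑ j, g v j := by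
  rw [Finset.prod_univ_sum, Fintype.piFinset_univ]

/-- The exponential moment. -/
theorem exp_moment (p : J → ℝ) (hp : ∀ j, 0 ≤ p j) (hp1 : ∑ j, p j = 1) (F : Finset V) (j : J)
    (lam : ℝ) :
    ∑ c : V → J, (∏ v, p (c v)) * Real.exp (lam * cnt c F j) ≤
      Real.exp (p j * F.card * (Real.exp lam - 1)) := by
  have h1 : ∀ c : V → J, (∏ v, p (c v)) * Real.exp (lam * cnt c F j) =
      ∏ v, (p (c v) * (if v ∈ F ∧ c v = j then Real.exp lam else 1)) := by
    intro c
    rw [Finset.prod_mul_distrib]
    congr 1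
    rw [Finset.prod_ite, Finset.prod_const, Finset.prod_const_one, mul_one, mul_comm,
      Real.exp_nat_mul]
    congr 1
    unfold cnt
    congr 1
    ext v
    simp only [Finset.mem_inter, Finset.mem_filter, Finset.mem_univ, true_and]
    exact And.comm
  rw [Finset.sum_congr rfl (fun c _ => h1 c),
    sum_prod_col (fun v i => p i * (if v ∈ F ∧ i = j then Real.exp lam else 1))]
  have h2 : ∀ v, ∑ i, p i * (if v ∈ F ∧ i = j then Real.exp lam else 1) =
      if v ∈ F then 1 + p j * (Real.exp lam - 1) else 1 := by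
    intro v
    by_cases hv : v ∈ F
    · rw [if_pos hv]
      have : ∀ i, p i * (if v ∈ F ∧ i = j then Real.exp lam else 1) =
          p i + (if i = j then p i * (Real.exp lam - 1) else 0) := by
        intro i
        by_cases hi : i = j
        · simp [hv, hi]; ring
        · simp [hi]
      rw [Finset.sum_congr rfl (fun i _ => this i), Finset.sum_add_distrib, hp1]
      simp
    · rw [if_neg hv]
      simp [hv, hp1]
  rw [Finset.prod_congr rfl (fun v _ => h2 v), Finset.prod_ite, Finset.prod_const,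
    Finset.prod_const_one, mul_one]
  have h3 : (univ.filter fun v => v ∈ F) = F := by ext v; simp
  rw [h3]
  have h4 : 0 ≤ 1 + p j * (Real.exp lam - 1) := by
    have hpj1 : p j ≤ 1 := by
      rw [← hp1]
      exact Finset.single_le_sum (fun i _ => hp i) (Finset.mem_univ j)
    have := Real.exp_pos lam
    nlinarith [hp j, mul_nonneg (hp j) this.le]
  have h5 : 1 + p j * (Real.exp lam - 1) ≤ Real.exp (p j * (Real.exp lam - 1)) := by
    have := Real.add_one_le_exp (p j * (Real.exp lam - 1))
    linarith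
  calc (1 + p j * (Real.exp lam - 1)) ^ F.card ≤
      (Real.exp (p j * (Real.exp lam - 1))) ^ F.card := pow_le_pow_left₀ h4 h5 _
    _ = Real.exp (p j * F.card * (Real.exp lam - 1)) := by
      rw [← Real.exp_nat_mul]; congr 1; ring

/-- Chernoff bound: the weight of the colourings with a large deviation. -/
theorem chernoff (p : J → ℝ) (hp : ∀ j, 0 ≤ p j) (hp1 : ∑ j, p j = 1) (F : Finset V) (j : J)
    (d : ℝ) (hd : 0 < d) (hd1 : d ≤ 1) :
    ∑ c ∈ univ.filter (fun c : V → J => d * Fintype.card V ≤ |(cnt c F j : ℝ) - p j * F.card|),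
      (∏ v, p (c v)) ≤ 2 * Real.exp (-(d ^ 2 * Fintype.card V / 4)) := by
  set n : ℝ := (Fintype.card V : ℝ) with hn
  have hpj1 : p j ≤ 1 := by
    rw [← hp1]
    exact Finset.single_le_sum (fun i _ => hp i) (Finset.mem_univ j)
  have hFn : (F.card : ℝ) ≤ n := by
    rw [hn]; exact_mod_cast Finset.card_le_univ F
  have hF0 : (0 : ℝ) ≤ F.card := Nat.cast_nonneg _
  have hpF : p j * F.card ≤ n := by nlinarith [hp j]
  have hpF0 : 0 ≤ p j * F.card := mul_nonneg (hp j) hF0
  have hw : ∀ c : V → J, 0 ≤ ∏ v, p (c v) := fun c => Finset.prod_nonneg (fun v _ => hp _)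
  have key : ∀ lam : ℝ, |lam| = d / 2 → Real.exp (p j * F.card * (Real.exp lam - 1)) *
      Real.exp (-(lam * (p j * F.card) + d / 2 * (d * n))) ≤
      Real.exp (-(d ^ 2 * n / 4)) := by
    intro lam hlam
    rw [← Real.exp_add]
    apply Real.exp_le_exp.2
    have h1 := Real.abs_exp_sub_one_sub_id_le (x := lam) (by rw [hlam]; linarith)
    have h2 : Real.exp lam - 1 - lam ≤ lam ^ 2 := (le_abs_self _).trans h1
    have h3 : lam ^ 2 = d ^ 2 / 4 := by
      rw [← sq_abs, hlam]; ring
    have h4 : p j * F.card * (Real.exp lam - 1 - lam) ≤ p j * F.card * (d ^ 2 / 4) := by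
      apply mul_le_mul_of_nonneg_left _ hpF0
      rw [← h3]; exact h2
    have h5 : p j * F.card * (d ^ 2 / 4) ≤ n * (d ^ 2 / 4) :=
      mul_le_mul_of_nonneg_right hpF (by positivity)
    nlinarith
  have hpoint : ∀ c ∈ univ.filter (fun c : V → J =>
      d * n ≤ |(cnt c F j : ℝ) - p j * F.card|),
      (∏ v, p (c v)) ≤
        (∏ v, p (c v)) * Real.exp (d / 2 * cnt c F j) *
          Real.exp (-(d / 2 * (p j * F.card) + d / 2 * (d * n))) +
        (∏ v, p (c v)) * Real.exp (-(d / 2) * cnt c F j) *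
          Real.exp (-(-(d / 2) * (p j * F.card) + d / 2 * (d * n))) := by
    intro c hc
    rw [Finset.mem_filter] at hc
    have hc := hc.2
    have t1 : ∀ x : ℝ, 0 ≤ x → 1 ≤ Real.exp x := fun x hx => Real.one_le_exp hx
    rcases le_abs.1 hc with h | h
    · have e1 : Real.exp (d / 2 * cnt c F j) *
          Real.exp (-(d / 2 * (p j * F.card) + d / 2 * (d * n))) =
          Real.exp (d / 2 * ((cnt c F j : ℝ) - p j * F.card - d * n)) := by
        rw [← Real.exp_add]; congr 1; ring
      have e2 : 1 ≤ Real.exp (d / 2 * ((cnt c F j : ℝ) - p j * F.card - d * n)) := by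
        apply t1
        apply mul_nonneg (by linarith)
        linarith
      have e3 : 0 ≤ (∏ v, p (c v)) * Real.exp (-(d / 2) * cnt c F j) *
          Real.exp (-(-(d / 2) * (p j * F.card) + d / 2 * (d * n))) :=
        mul_nonneg (mul_nonneg (hw c) (Real.exp_pos _).le) (Real.exp_pos _).le
      rw [mul_assoc (∏ v, p (c v)) (Real.exp (d / 2 * cnt c F j)), e1]
      nlinarith [hw c, mul_le_mul_of_nonneg_left e2 (hw c)]
    · have e1 : Real.exp (-(d / 2) * cnt c F j) *
          Real.exp (-(-(d / 2) * (p j * F.card) + d / 2 * (d * n))) =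
          Real.exp (d / 2 * (-((cnt c F j : ℝ) - p j * F.card) - d * n)) := by
        rw [← Real.exp_add]; congr 1; ring
      have e2 : 1 ≤ Real.exp (d / 2 * (-((cnt c F j : ℝ) - p j * F.card) - d * n)) := by
        apply t1
        apply mul_nonneg (by linarith)
        linarith
      have e3 : 0 ≤ (∏ v, p (c v)) * Real.exp (d / 2 * cnt c F j) *
          Real.exp (-(d / 2 * (p j * F.card) + d / 2 * (d * n))) :=
        mul_nonneg (mul_nonneg (hw c) (Real.exp_pos _).le) (Real.exp_pos _).le
      rw [mul_assoc (∏ v, p (c v)) (Real.exp (-(d / 2) * cnt c F j)), e1]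
      nlinarith [hw c, mul_le_mul_of_nonneg_left e2 (hw c)]
  refine (Finset.sum_le_sum hpoint).trans ?_
  refine (Finset.sum_le_sum_of_subset_of_nonneg (Finset.subset_univ _) ?_).trans ?_
  · intro c _ _
    exact add_nonneg (mul_nonneg (mul_nonneg (hw c) (Real.exp_pos _).le) (Real.exp_pos _).le)
      (mul_nonneg (mul_nonneg (hw c) (Real.exp_pos _).le) (Real.exp_pos _).le)
  · rw [Finset.sum_add_distrib, ← Finset.sum_mul, ← Finset.sum_mul]
    have a1 := mul_le_mul_of_nonneg_right (exp_moment p hp hp1 F j (d / 2))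
      (Real.exp_pos (-(d / 2 * (p j * F.card) + d / 2 * (d * n)))).le
    have a2 := mul_le_mul_of_nonneg_right (exp_moment p hp hp1 F j (-(d / 2)))
      (Real.exp_pos (-(-(d / 2) * (p j * F.card) + d / 2 * (d * n)))).le
    have b1 := key (d / 2) (abs_of_pos (by linarith))
    have b2 := key (-(d / 2)) (by rw [abs_neg]; exact abs_of_pos (by linarith))
    linarith

/-- A colouring without large deviations. -/
theorem exists_col (p : J → ℝ) (hp : ∀ j, 0 ≤ p j) (hp1 : ∑ j, p j = 1) (𝓕 : Finset (Finset V))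
    (d : ℝ) (hd : 0 < d) (hd1 : d ≤ 1)
    (hsmall : (𝓕.card : ℝ) * Fintype.card J * (2 * Real.exp (-(d ^ 2 * Fintype.card V / 4))) < 1) :
    ∃ c : V → J, ∀ F ∈ 𝓕, ∀ j, |(cnt c F j : ℝ) - p j * F.card| < d * Fintype.card V := by
  by_contra hcon
  push Not at hcon
  have hw : ∀ c : V → J, 0 ≤ ∏ v, p (c v) := fun c => Finset.prod_nonneg (fun v _ => hp _)
  have htot : ∑ c : V → J, ∏ v, p (c v) = 1 := by
    rw [sum_prod_col (fun _ i => p i)]
    simp [hp1]
  have h1 : ∑ c : V → J, ∏ v, p (c v) ≤ ∑ c : V → J, ∑ F ∈ 𝓕, ∑ j,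
      (if d * Fintype.card V ≤ |(cnt c F j : ℝ) - p j * F.card| then ∏ v, p (c v) else 0) := by
    apply Finset.sum_le_sum; intro c _
    obtain ⟨F, hF, j, hj⟩ := hcon c
    have hnn : ∀ F ∈ 𝓕, 0 ≤ ∑ j,
        (if d * Fintype.card V ≤ |(cnt c F j : ℝ) - p j * F.card| then ∏ v, p (c v) else 0) := by
      intro F _
      apply Finset.sum_nonneg; intro j _
      split_ifs
      · exact hw c
      · exact le_rfl
    refine le_trans ?_ (Finset.single_le_sum hnn hF)
    have hnn2 : ∀ j ∈ (univ : Finset J), 0 ≤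
        (if d * Fintype.card V ≤ |(cnt c F j : ℝ) - p j * F.card| then ∏ v, p (c v) else 0) := by
      intro j _
      split_ifs
      · exact hw c
      · exact le_rfl
    refine le_trans ?_ (Finset.single_le_sum hnn2 (Finset.mem_univ j))
    rw [if_pos hj]
  have h2 : ∑ c : V → J, ∑ F ∈ 𝓕, ∑ j,
      (if d * Fintype.card V ≤ |(cnt c F j : ℝ) - p j * F.card| then ∏ v, p (c v) else 0) =
      ∑ F ∈ 𝓕, ∑ j, ∑ c ∈ univ.filter (fun c : V → J =>
        d * Fintype.card V ≤ |(cnt c F j : ℝ) - p j * F.card|), (∏ v, p (c v)) := by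
    rw [Finset.sum_comm]
    apply Finset.sum_congr rfl; intro F _
    rw [Finset.sum_comm]
    apply Finset.sum_congr rfl; intro j _
    rw [Finset.sum_filter]
  have h3 : ∑ F ∈ 𝓕, ∑ j, ∑ c ∈ univ.filter (fun c : V → J =>
        d * Fintype.card V ≤ |(cnt c F j : ℝ) - p j * F.card|), (∏ v, p (c v)) ≤
      ∑ F ∈ 𝓕, ∑ _j : J, 2 * Real.exp (-(d ^ 2 * Fintype.card V / 4)) := by
    apply Finset.sum_le_sum; intro F _
    apply Finset.sum_le_sum; intro j _
    exact chernoff p hp hp1 F j d hd hd1
  simp only [Finset.sum_const, nsmul_eq_mul, Finset.card_univ] at h3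
  rw [htot] at h1
  rw [h2] at h1
  have := h1.trans h3
  rw [← mul_assoc] at this
  linarith

/-- Correcting the sizes of the colour classes. -/
theorem fix_sizes (c₀ : V → J) (s : J → ℕ) (hs : ∑ j, s j = Fintype.card V) (e : ℝ)
    (h : ∀ j, |(cnt c₀ univ j : ℝ) - s j| ≤ e) :
    ∃ c : V → J, ∀ j, (univ.filter fun v => c v = j).card = s j ∧
      ∀ F : Finset V, |(cnt c F j : ℝ) - cnt c₀ F j| ≤ e := by
  have hcnt : ∀ j, cnt c₀ univ j = (univ.filter fun v => c₀ v = j).card := by
    intro j; unfold cnt; rw [Finset.inter_univ]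
  have hA : ∀ j, ∃ A ⊆ univ.filter (fun v => c₀ v = j),
      A.card = min (univ.filter fun v => c₀ v = j).card (s j) := fun j =>
    Finset.exists_subset_card_eq (min_le_left _ _)
  choose A hA1 hA2 using hA
  have hAc : ∀ j v, v ∈ A j → c₀ v = j := by
    intro j v hv
    have := hA1 j hv
    simpa using this
  set U := univ.filter fun v => v ∉ A (c₀ v) with hU
  have hUc : (Uᶜ).card = ∑ j, (A j).card := by
    have : Uᶜ = univ.biUnion A := by
      ext v
      simp only [hU, Finset.mem_compl, Finset.mem_filter, Finset.mem_univ, true_and, not_not,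
        Finset.mem_biUnion]
      constructor
      · intro hv; exact ⟨_, hv⟩
      · rintro ⟨j, hj⟩
        rw [hAc j v hj]; exact hj
    rw [this, Finset.card_biUnion]
    intro i _ j _ hij
    rw [Function.onFun, Finset.disjoint_left]
    intro v hi hj
    exact hij ((hAc i v hi).symm.trans (hAc j v hj))
  have hUcard : U.card = ∑ j, (s j - (A j).card) := by
    have h1 : U.card + (Uᶜ).card = Fintype.card V := Finset.card_add_card_compl U
    have h2 : ∑ j, (s j - (A j).card) + ∑ j, (A j).card = ∑ j, s j := by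
      rw [← Finset.sum_add_distrib]
      apply Finset.sum_congr rfl; intro j _
      have : (A j).card ≤ s j := by rw [hA2]; exact min_le_right _ _
      omega
    omega
  have hcardeq : Fintype.card U = Fintype.card ((j : J) × Fin (s j - (A j).card)) := by
    rw [Fintype.card_coe, Fintype.card_sigma, hUcard]
    simp
  have eqv := Fintype.equivOfCardEq hcardeq
  refine ⟨fun v => if hv : v ∈ U then (eqv ⟨v, hv⟩).1 else c₀ v, ?_⟩
  intro j
  set c : V → J := fun v => if hv : v ∈ U then (eqv ⟨v, hv⟩).1 else c₀ v with hc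
  -- the class of `j`
  have hcl : (univ.filter fun v => c v = j) = A j ∪ U.filter (fun v => c v = j) := by
    ext v
    simp only [Finset.mem_filter, Finset.mem_univ, true_and, Finset.mem_union]
    constructor
    · intro hv
      by_cases hvU : v ∈ U
      · exact Or.inr ⟨hvU, hv⟩
      · left
        have h1 : c v = c₀ v := by rw [hc]; simp [hvU]
        have h2 : v ∈ A (c₀ v) := by
          by_contra hcon
          exact hvU (by rw [hU]; simp [hcon])
        rw [← hv, h1]; exact h2
    · rintro (hv | hv)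
      · have h1 := hAc j v hv
        have hvU : v ∉ U := by
          rw [hU]; simp [h1, hv]
        have h2 : c v = c₀ v := by rw [hc]; simp [hvU]
        rw [h2, h1]
      · exact hv.2
  have hfib : (U.filter (fun v => c v = j)).card = s j - (A j).card := by
    have : (U.filter (fun v => c v = j)).card =
        (univ.filter (fun x : U => (eqv x).1 = j)).card := by
      symm
      apply Finset.card_bij (fun (x : U) _ => (x : V))
      · intro x hx
        rw [Finset.mem_filter] at hx
        rw [Finset.mem_filter]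
        refine ⟨x.2, ?_⟩
        rw [hc]; simp [hx.2]
      · intro x _ y _ hxy
        exact Subtype.ext hxy
      · intro v hv
        rw [Finset.mem_filter] at hv
        refine ⟨⟨v, hv.1⟩, ?_, rfl⟩
        rw [Finset.mem_filter]
        refine ⟨Finset.mem_univ _, ?_⟩
        have := hv.2
        rw [hc] at this
        simpa [hv.1] using this
    rw [this]
    have h2 : (univ.filter (fun x : U => (eqv x).1 = j)).card =
        (univ.filter (fun y : (j : J) × Fin (s j - (A j).card) => y.1 = j)).card := by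
      apply Finset.card_bij (fun x _ => eqv x)
      · intro x hx
        rw [Finset.mem_filter] at hx
        rw [Finset.mem_filter]
        exact ⟨Finset.mem_univ _, hx.2⟩
      · intro x _ y _ hxy
        exact eqv.injective hxy
      · intro y hy
        rw [Finset.mem_filter] at hy
        refine ⟨eqv.symm y, ?_, by simp⟩
        rw [Finset.mem_filter]
        exact ⟨Finset.mem_univ _, by simp [hy.2]⟩
    rw [h2]
    have h3 : (univ.filter (fun y : (j : J) × Fin (s j - (A j).card) => y.1 = j)) =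
        univ.image (fun t : Fin (s j - (A j).card) =>
          (⟨j, t⟩ : (j : J) × Fin (s j - (A j).card))) := by
      ext y
      simp only [Finset.mem_filter, Finset.mem_univ, true_and, Finset.mem_image]
      constructor
      · intro hy
        obtain ⟨a, b⟩ := y
        simp only at hy
        subst hy
        exact ⟨b, rfl⟩
      · rintro ⟨t, rfl⟩; rfl
    rw [h3, Finset.card_image_of_injective]
    · simp
    · intro a b hab
      simpa using hab
  have hdisj : Disjoint (A j) (U.filter (fun v => c v = j)) := by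
    rw [Finset.disjoint_left]
    intro v hv hv'
    rw [Finset.mem_filter] at hv'
    have h1 := hAc j v hv
    have : v ∉ U := by rw [hU]; simp [h1, hv]
    exact this hv'.1
  have hAle : (A j).card ≤ s j := by rw [hA2]; exact min_le_right _ _
  constructor
  · rw [hcl, Finset.card_union_of_disjoint hdisj, hfib]
    omega
  · intro F
    -- both classes contain `A j`
    have hA1' : A j ⊆ univ.filter (fun v => c₀ v = j) := hA1 j
    have u1 : cnt c F j ≤ (A j ∩ F).card + (s j - (A j).card) := by
      unfold cnt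
      rw [hcl, Finset.union_inter_distrib_right]
      refine (Finset.card_union_le _ _).trans ?_
      have : ((U.filter (fun v => c v = j)) ∩ F).card ≤ s j - (A j).card := by
        rw [← hfib]; exact Finset.card_le_card Finset.inter_subset_left
      omega
    have u2 : (A j ∩ F).card ≤ cnt c F j := by
      unfold cnt
      rw [hcl]
      exact Finset.card_le_card (Finset.inter_subset_inter_right Finset.subset_union_left)
    have u3 : (A j ∩ F).card ≤ cnt c₀ F j := by
      unfold cnt
      exact Finset.card_le_card (Finset.inter_subset_inter_right hA1')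
    have u4 : cnt c₀ F j ≤ (A j ∩ F).card + (cnt c₀ univ j - (A j).card) := by
      unfold cnt
      rw [Finset.inter_univ]
      have hsub : (univ.filter (fun v => c₀ v = j)) ∩ F ⊆
          (A j ∩ F) ∪ ((univ.filter (fun v => c₀ v = j)) \ A j) := by
        intro v hv
        rw [Finset.mem_inter] at hv
        rw [Finset.mem_union, Finset.mem_inter, Finset.mem_sdiff]
        by_cases hvA : v ∈ A j
        · exact Or.inl ⟨hvA, hv.2⟩
        · exact Or.inr ⟨hv.1, hvA⟩
      refine (Finset.card_le_card hsub).trans ?_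
      refine (Finset.card_union_le _ _).trans ?_
      rw [Finset.card_sdiff_of_subset hA1']
    have hAj := hA2 j
    rw [← hcnt] at hAj
    have hj := h j
    rw [abs_le] at hj ⊢
    rcases le_total (cnt c₀ univ j) (s j) with hle | hle
    · rw [min_eq_left hle] at hAj
      have v1 : cnt c F j ≤ (A j ∩ F).card + (s j - cnt c₀ univ j) := by rw [← hAj]; exact u1
      have v4 : cnt c₀ F j ≤ (A j ∩ F).card := by omega
      have w1 : (cnt c F j : ℝ) ≤ (A j ∩ F).card + ((s j : ℝ) - cnt c₀ univ j) := by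
        have : ((cnt c F j : ℕ) : ℝ) ≤ (((A j ∩ F).card + (s j - cnt c₀ univ j) : ℕ) : ℝ) := by
          exact_mod_cast v1
        push_cast [Nat.cast_sub hle] at this
        exact this
      have w2 : ((A j ∩ F).card : ℝ) ≤ cnt c F j := by exact_mod_cast u2
      have w3 : ((A j ∩ F).card : ℝ) ≤ cnt c₀ F j := by exact_mod_cast u3
      have w4 : (cnt c₀ F j : ℝ) ≤ (A j ∩ F).card := by exact_mod_cast v4
      have he : 0 ≤ e := le_trans (abs_nonneg _) (h j)
      constructor <;> linarith [hj.1, hj.2]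
    · rw [min_eq_right hle] at hAj
      have v1 : cnt c F j ≤ (A j ∩ F).card := by omega
      have v4 : cnt c₀ F j ≤ (A j ∩ F).card + (cnt c₀ univ j - s j) := by rw [← hAj]; exact u4
      have w1 : (cnt c₀ F j : ℝ) ≤ (A j ∩ F).card + ((cnt c₀ univ j : ℝ) - s j) := by
        have : ((cnt c₀ F j : ℕ) : ℝ) ≤ (((A j ∩ F).card + (cnt c₀ univ j - s j) : ℕ) : ℝ) := by
          exact_mod_cast v4
        push_cast [Nat.cast_sub hle] at this
        exact this
      have w2 : ((A j ∩ F).card : ℝ) ≤ cnt c F j := by exact_mod_cast u2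
      have w3 : ((A j ∩ F).card : ℝ) ≤ cnt c₀ F j := by exact_mod_cast u3
      have w4 : (cnt c F j : ℝ) ≤ (A j ∩ F).card := by exact_mod_cast v1
      have he : 0 ≤ e := le_trans (abs_nonneg _) (h j)
      constructor <;> linarith [hj.1, hj.2]

end SA

theorem sampling (η θ : ℝ) (hη : 0 < η) (hθ : 0 < θ) : ∃ N₀ : ℕ, ∀ (V : Type) [Fintype V],
    N₀ ≤ Fintype.card V → ∀ 𝓕 : Finset (Finset V), 𝓕.card ≤ 5 * (Fintype.card V) ^ 2 →
    ∀ (J : Type) [Fintype J] (s : J → ℕ), ∑ j, s j = Fintype.card V →
    (∀ j, θ * (Fintype.card V : ℝ) ≤ (s j : ℝ)) →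
    ∃ c : V → J, ∀ j, (univ.filter fun v => c v = j).card = s j ∧
      ∀ F ∈ 𝓕, |(((univ.filter fun v => c v = j) ∩ F).card : ℝ) * (Fintype.card V : ℝ) -
        (s j : ℝ) * (F.card : ℝ)| ≤ η * (s j : ℝ) * (Fintype.card V : ℝ) := by
  set d : ℝ := min 1 (η * θ / 2) with hd
  have hd0 : 0 < d := lt_min one_pos (by positivity)
  have hd1 : d ≤ 1 := min_le_left _ _
  have hd2 : d ≤ η * θ / 2 := min_le_right _ _
  obtain ⟨N₁, hN₁⟩ := exists_nat_gt (4608 / (θ * d ^ 6))
  refine ⟨N₁ + 1, ?_⟩
  intro V _ hV 𝓕 h𝓕 J _ s hs hsθ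
  set n : ℝ := (Fintype.card V : ℝ) with hn
  have hn1 : 1 ≤ n := by
    rw [hn]
    have : 1 ≤ Fintype.card V := by omega
    exact_mod_cast this
  have hn0 : 0 < n := by linarith
  have hnN : 4608 / (θ * d ^ 6) < n := by
    refine hN₁.trans_le ?_
    rw [hn]
    have : N₁ ≤ Fintype.card V := by omega
    exact_mod_cast this
  have hsn : ∑ j, (s j : ℝ) = n := by
    rw [hn, ← hs]; push_cast; rfl
  -- the number of colours
  have hJ : (Fintype.card J : ℝ) ≤ 1 / θ := by
    have h1 : ∑ _j : J, θ * n ≤ n := by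
      rw [← hsn]
      exact Finset.sum_le_sum (fun j _ => by rw [hsn]; exact hsθ j)
    rw [Finset.sum_const, nsmul_eq_mul, Finset.card_univ] at h1
    rw [le_div_iff₀ hθ]
    have h2 : (Fintype.card J : ℝ) * θ * n ≤ 1 * n := by linarith
    exact le_of_mul_le_mul_right h2 hn0
  set p : J → ℝ := fun j => (s j : ℝ) / n with hp
  have hp0 : ∀ j, 0 ≤ p j := fun j => div_nonneg (Nat.cast_nonneg _) hn0.le
  have hp1 : ∑ j, p j = 1 := by
    rw [hp]; beta_reduce
    rw [← Finset.sum_div, hsn]
    field_simp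
  have hexp : Real.exp (-(d ^ 2 * n / 4)) ≤ 6 / (d ^ 2 * n / 4) ^ 3 := by
    rw [Real.exp_neg]
    have h1 := Real.pow_div_factorial_le_exp (d ^ 2 * n / 4) (by positivity) 3
    have h2 : 0 < (d ^ 2 * n / 4) ^ 3 := by positivity
    have h3 : 6 / (d ^ 2 * n / 4) ^ 3 = ((d ^ 2 * n / 4) ^ 3 / (Nat.factorial 3 : ℕ))⁻¹ := by
      rw [inv_div]; norm_num [Nat.factorial]
    rw [h3]
    apply inv_anti₀ _ h1
    positivity
  have hsmall : (((insert univ 𝓕).card : ℕ) : ℝ) * Fintype.card J *
      (2 * Real.exp (-(d ^ 2 * Fintype.card V / 4))) < 1 := by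
    rw [← hn]
    have h1 : (((insert univ 𝓕).card : ℕ) : ℝ) ≤ 6 * n ^ 2 := by
      have h2 : (insert univ 𝓕).card ≤ 5 * (Fintype.card V) ^ 2 + 1 :=
        (Finset.card_insert_le _ _).trans (by omega)
      have h3 : (((insert univ 𝓕).card : ℕ) : ℝ) ≤ ((5 * (Fintype.card V) ^ 2 + 1 : ℕ) : ℝ) := by
        exact_mod_cast h2
      push_cast at h3
      rw [← hn] at h3
      nlinarith
    have h4 : (((insert univ 𝓕).card : ℕ) : ℝ) * Fintype.card J ≤ 6 * n ^ 2 * (1 / θ) :=
      mul_le_mul h1 hJ (Nat.cast_nonneg _) (by positivity)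
    have h5 : (((insert univ 𝓕).card : ℕ) : ℝ) * Fintype.card J *
        (2 * Real.exp (-(d ^ 2 * n / 4))) ≤
        6 * n ^ 2 * (1 / θ) * (2 * (6 / (d ^ 2 * n / 4) ^ 3)) := by
      apply mul_le_mul h4 _ (by positivity) (by positivity)
      linarith
    refine h5.trans_lt ?_
    have h6 : 6 * n ^ 2 * (1 / θ) * (2 * (6 / (d ^ 2 * n / 4) ^ 3)) =
        4608 / (θ * d ^ 6) / n := by
      field_simp
      ring
    rw [h6, div_lt_one hn0]
    exact hnN
  obtain ⟨c₀, hc₀⟩ := SA.exists_col p hp0 hp1 (insert univ 𝓕) d hd0 hd1 hsmall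
  have hps : ∀ j, p j * n = s j := by
    intro j; rw [hp]; field_simp
  obtain ⟨c, hc⟩ := SA.fix_sizes c₀ s hs (d * n) (by
    intro j
    have := hc₀ univ (Finset.mem_insert_self _ _) j
    rw [Finset.card_univ, ← hn, hps] at this
    exact this.le)
  refine ⟨c, fun j => ⟨(hc j).1, ?_⟩⟩
  intro F hF
  have h1 := (hc j).2 F
  have h2 := (hc₀ F (Finset.mem_insert_of_mem hF) j).le
  rw [← hn] at h2
  have h3 : |(SA.cnt c F j : ℝ) - p j * F.card| ≤ 2 * (d * n) := by
    have := abs_sub_le (SA.cnt c F j : ℝ) (SA.cnt c₀ F j) (p j * F.card)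
    linarith
  have h4 : (((univ.filter fun v => c v = j) ∩ F).card : ℝ) * n - (s j : ℝ) * (F.card : ℝ) =
      ((SA.cnt c F j : ℝ) - p j * F.card) * n := by
    have : (SA.cnt c F j : ℝ) = (((univ.filter fun v => c v = j) ∩ F).card : ℝ) := rfl
    rw [this, ← hps j]; ring
  rw [h4, abs_mul, abs_of_pos hn0]
  apply mul_le_mul_of_nonneg_right _ hn0.le
  refine h3.trans ?_
  have h5 := hsθ j
  have h6 : d * n ≤ η * θ / 2 * n := mul_le_mul_of_nonneg_right hd2 hn0.le
  have h7 : η * (θ * n) ≤ η * s j := mul_le_mul_of_nonneg_left h5 hη.le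
  nlinarith

end

end OT
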