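import Mathlib

/-!
# Module PE: permutations as products of involutions of small support
-/

set_option autoImplicit false

open Finset
open scoped Classical

namespace OT

noncomputable section

namespace PE

/-- Every permutation is a product of two involutions. -/
theorem two_involutions {L : Type} (τ : Equiv.Perm L) :
    ∃ s t : Equiv.Perm L, (∀ x, s (s x) = x) ∧ (∀ x, t (t x) = x) ∧ s * t = τ := by
  let st := Equiv.Perm.SameCycle.setoid τ
  let r : L → L := fun x => (Quotient.mk st x).out
  have hr : ∀ x, Equiv.Perm.SameCycle τ (r x) x := fun x =>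
    Quotient.exact (Quotient.out_eq (Quotient.mk st x))
  have hrr : ∀ x y, Equiv.Perm.SameCycle τ x y → r x = r y := by
    intro x y h
    have : Quotient.mk st x = Quotient.mk st y := Quotient.sound h
    exact congrArg Quotient.out this
  choose k hk using hr
  let s : L → L := fun x => (τ ^ (-(k x))) (r x)
  have key : ∀ x (m : ℤ), (τ ^ m) (r x) = x → s x = (τ ^ (-m)) (r x) := by
    intro x m hm
    have h1 : (τ ^ (k x)) (r x) = (τ ^ m) (r x) := (hk x).trans hm.symm
    have h2 : (τ ^ (-(k x) - m)) ((τ ^ (k x)) (r x)) = (τ ^ (-(k x) - m)) ((τ ^ m) (r x)) := by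
      rw [h1]
    rw [← Equiv.Perm.mul_apply, ← Equiv.Perm.mul_apply, ← zpow_add, ← zpow_add] at h2
    have e1 : -(k x) - m + k x = -m := by ring
    have e2 : -(k x) - m + m = -(k x) := by ring
    rw [e1, e2] at h2
    exact h2.symm
  have hs_same : ∀ x, r (s x) = r x := by
    intro x
    apply hrr
    have h1 : Equiv.Perm.SameCycle τ (r x) (s x) := ⟨-(k x), rfl⟩
    exact h1.symm.trans ⟨k x, hk x⟩
  have hss : ∀ x, s (s x) = x := by
    intro x
    have h1 : (τ ^ (-(k x))) (r (s x)) = s x := by rw [hs_same]
    rw [key (s x) _ h1, hs_same, neg_neg]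
    exact hk x
  have hst : ∀ x, s (τ x) = τ⁻¹ (s x) := by
    intro x
    have hrt : r (τ x) = r x := by
      apply hrr
      exact Equiv.Perm.SameCycle.symm ⟨1, by simp⟩
    have h1 : (τ ^ (k x + 1)) (r (τ x)) = τ x := by
      rw [hrt, add_comm, zpow_add, Equiv.Perm.mul_apply, hk x, zpow_one]
    rw [key (τ x) _ h1, hrt]
    have e : -(k x + 1) = -1 + -(k x) := by ring
    rw [e, zpow_add, Equiv.Perm.mul_apply, zpow_neg_one]
  let S : Equiv.Perm L := Function.Involutive.toPerm s hss
  refine ⟨S, S * τ, hss, ?_, ?_⟩
  · intro x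
    change s (τ (s (τ x))) = x
    rw [hst, hss]
    exact τ.symm_apply_apply x
  · rw [← mul_assoc]
    have : S * S = 1 := by
      ext x
      exact hss x
    rw [this, one_mul]

/-- An involution with small support is a product of involutions of smaller support. -/
theorem involution_decomp {L : Type} [Fintype L] (k : ℕ) : ∀ (B : ℕ) (σ : Equiv.Perm L),
    (∀ x, σ (σ x) = x) → (univ.filter fun x => σ x ≠ x).card ≤ k * B →
    ∃ l : List (Equiv.Perm L), l.length = B ∧
      (∀ ρ ∈ l, (∀ x, ρ (ρ x) = x) ∧ (univ.filter fun x => ρ x ≠ x).card ≤ 2 * k) ∧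
      l.prod = σ := by
  intro B
  induction B with
  | zero =>
      intro σ _ hsupp
      refine ⟨[], rfl, by simp, ?_⟩
      rw [mul_zero, Nat.le_zero, Finset.card_eq_zero] at hsupp
      ext x
      by_contra hne
      have : x ∈ (univ.filter fun x => σ x ≠ x) := by
        rw [Finset.mem_filter]
        refine ⟨Finset.mem_univ _, ?_⟩
        intro h
        apply hne
        rw [h]; rfl
      rw [hsupp] at this
      simp at this
  | succ B ih =>
      intro σ hσ hsupp
      set U := univ.filter fun x => σ x ≠ x with hU
      obtain ⟨A, hA, hAc⟩ := Finset.exists_subset_card_eq (Nat.min_le_right k U.card)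
      set S := A ∪ A.image σ with hS
      have hSc : S.card ≤ 2 * k := by
        have h1 : (A.image σ).card ≤ A.card := Finset.card_image_le
        have h2 := Finset.card_union_le A (A.image σ)
        have h3 : A.card ≤ k := by rw [hAc]; exact Nat.min_le_left _ _
        rw [hS]; omega
      have hinv : ∀ x, x ∈ S → σ x ∈ S := by
        intro x hx
        rw [hS, Finset.mem_union, Finset.mem_image] at hx ⊢
        rcases hx with hx | ⟨y, hy, rfl⟩
        · exact Or.inr ⟨x, hx, rfl⟩
        · left; rw [hσ]; exact hy
      have hinv' : ∀ x, x ∉ S → σ x ∉ S := by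
        intro x hx h
        have := hinv _ h
        rw [hσ] at this
        exact hx this
      let f1 : L → L := fun x => if x ∈ S then σ x else x
      let f2 : L → L := fun x => if x ∈ S then x else σ x
      have hf1 : ∀ x, f1 (f1 x) = x := by
        intro x
        by_cases hx : x ∈ S
        · simp [f1, hx, hinv x hx, hσ]
        · simp [f1, hx]
      have hf2 : ∀ x, f2 (f2 x) = x := by
        intro x
        by_cases hx : x ∈ S
        · simp [f2, hx]
        · simp [f2, hx, hinv' x hx, hσ]
      let σ1 : Equiv.Perm L := Function.Involutive.toPerm f1 hf1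
      let σ2 : Equiv.Perm L := Function.Involutive.toPerm f2 hf2
      have e1 : ∀ x, σ1 x = if x ∈ S then σ x else x := fun x => rfl
      have e2 : ∀ x, σ2 x = if x ∈ S then x else σ x := fun x => rfl
      have hprod : σ1 * σ2 = σ := by
        ext x
        rw [Equiv.Perm.mul_apply]
        by_cases hx : x ∈ S
        · rw [e2, if_pos hx, e1, if_pos hx]
        · rw [e2, if_neg hx, e1, if_neg (hinv' x hx)]
      have hsupp1 : (univ.filter fun x => σ1 x ≠ x).card ≤ 2 * k := by
        refine le_trans (Finset.card_le_card ?_) hSc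
        intro x hx
        rw [Finset.mem_filter] at hx
        by_contra hne
        exact hx.2 (by rw [e1, if_neg hne])
      have hsupp2 : (univ.filter fun x => σ2 x ≠ x).card ≤ k * B := by
        have hsub : (univ.filter fun x => σ2 x ≠ x) ⊆ U \ A := by
          intro x hx
          rw [Finset.mem_filter] at hx
          have hxS : x ∉ S := fun h => hx.2 (by rw [e2, if_pos h])
          rw [Finset.mem_sdiff]
          constructor
          · rw [hU, Finset.mem_filter]
            refine ⟨Finset.mem_univ _, ?_⟩
            have := hx.2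
            rwa [e2, if_neg hxS] at this
          · intro h
            exact hxS (by rw [hS]; exact Finset.mem_union_left _ h)
        refine (Finset.card_le_card hsub).trans ?_
        rw [Finset.card_sdiff_of_subset hA, hAc]
        rw [Nat.mul_succ] at hsupp
        rcases Nat.le_total k U.card with h | h
        · rw [Nat.min_eq_left h]; omega
        · rw [Nat.min_eq_right h]; omega
      obtain ⟨l, hl1, hl2, hl3⟩ := ih σ2 hf2 hsupp2
      refine ⟨σ1 :: l, by simp [hl1], ?_, ?_⟩
      · intro ρ hρ
        rcases List.mem_cons.1 hρ with rfl | hρ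
        · exact ⟨hf1, hsupp1⟩
        · exact hl2 ρ hρ
      · rw [List.prod_cons, hl3, hprod]

end PE

theorem perm_decomp {L : Type} [Fintype L] (k B : ℕ) (hk : 1 ≤ k)
    (hB : Fintype.card L ≤ k * B) (τ : Equiv.Perm L) :
    ∃ l : List (Equiv.Perm L), l.length = 2 * B ∧
      (∀ σ ∈ l, (∀ x, σ (σ x) = x) ∧ (univ.filter fun x => σ x ≠ x).card ≤ 2 * k) ∧
      l.prod = τ := by
  obtain ⟨s, t, hs, ht, hst⟩ := PE.two_involutions τ
  have hc : ∀ σ : Equiv.Perm L, (univ.filter fun x => σ x ≠ x).card ≤ k * B := fun σ =>
    (Finset.card_le_univ _).trans hB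
  obtain ⟨l1, a1, a2, a3⟩ := PE.involution_decomp k B s hs (hc s)
  obtain ⟨l2, b1, b2, b3⟩ := PE.involution_decomp k B t ht (hc t)
  refine ⟨l1 ++ l2, by rw [List.length_append, a1, b1]; ring, ?_, ?_⟩
  · intro σ hσ
    rcases List.mem_append.1 hσ with h | h
    · exact a2 σ h
    · exact b2 σ h
  · rw [List.prod_append, a3, b3, hst]

end

end OT
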