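import Pool.Agent.Helper29.OT.St

set_option autoImplicit false

namespace Pool.Agent.Helper40.OT

open Finset Pool.Agent.Helper14.FEM Pool.Agent.Helper3.EMK Pool.Agent.Helper29.TK
  Pool.Agent.Helper29.OT

theorem OU_inj (n k : ℕ) (hk : 1 ≤ k) (A : Finset (Fin n)) (x : Fin n → ℝ)
    (h0 : ∀ i, i ∉ A → x i = 0) :
    cnt univ x k 1 ≤ cnt A x k 1 + #(univ \ A) * cnt univ x (k - 1) 1 := by
  classical
  unfold cnt
  have hsplit : #{e ∈ (univ : Finset (Fin n)).powersetCard k | (1 : ℝ) ≤ ∑ i ∈ e, x i} ≤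
      #{e ∈ A.powersetCard k | (1 : ℝ) ≤ ∑ i ∈ e, x i} +
      #{e ∈ (univ : Finset (Fin n)).powersetCard k | (1 : ℝ) ≤ ∑ i ∈ e, x i ∧ ¬ e ⊆ A} := by
    rw [← card_union_of_disjoint]
    · apply card_le_card
      intro e he
      simp only [mem_filter, mem_powersetCard, mem_union] at he ⊢
      by_cases h : e ⊆ A
      · exact Or.inl ⟨⟨h, he.1.2⟩, he.2⟩
      · exact Or.inr ⟨he.1, he.2, h⟩
    · rw [disjoint_left]
      intro e he he'
      simp only [mem_filter, mem_powersetCard] at he he'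
      exact he'.2.2 he.1.1
  refine hsplit.trans (Nat.add_le_add_left ?_ _)
  rw [← card_product]
  rcases isEmpty_or_nonempty (Fin n) with hemp | hne
  · have : {e ∈ (univ : Finset (Fin n)).powersetCard k | (1 : ℝ) ≤ ∑ i ∈ e, x i ∧ ¬ e ⊆ A} =
        (∅ : Finset (Finset (Fin n))) := by
      apply filter_eq_empty_iff.2
      intro e _ h
      exact h.2 (fun v _ => (hemp.false v).elim)
    rw [this, card_empty]
    exact Nat.zero_le _
  have hch : ∀ e : Finset (Fin n), ¬ e ⊆ A → ∃ v ∈ e, v ∉ A := by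
    intro e he
    exact not_subset.1 he
  choose! f hf1 hf2 using hch
  apply card_le_card_of_injOn (fun e => (f e, e.erase (f e)))
  · intro e he
    simp only [coe_filter, mem_powersetCard, Set.mem_setOf_eq] at he
    obtain ⟨⟨-, hc⟩, h1, h2⟩ := he
    simp only [coe_product, Set.mem_prod, mem_coe, mem_sdiff, mem_univ, true_and, mem_filter,
      mem_powersetCard, subset_univ]
    refine ⟨hf2 e h2, ?_, ?_⟩
    · rw [card_erase_of_mem (hf1 e h2), hc]
    · have := add_sum_erase e x (hf1 e h2)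
      rw [h0 _ (hf2 e h2), zero_add] at this
      rw [this]; exact h1
  · intro e he e' he' hee
    simp only [coe_filter, mem_powersetCard, Set.mem_setOf_eq] at he he'
    simp only [Prod.mk.injEq] at hee
    rw [← insert_erase (hf1 e he.2.2), ← insert_erase (hf1 e' he'.2.2), hee.2, hee.1]

theorem hOU (hL1 : StL1) : StOU := by
  classical
  intro n k hk A x hx h0 hA
  have h1 := OU_inj n k hk A x h0
  have h2 := hL1 n (k - 1) A x 1 (fun i _ => hx i) hA
  have h3 : #{R ∈ (univ : Finset (Fin n)).powersetCard (k - 1) | (1 : ℝ) ≤ ∑ i ∈ R ∩ A, x i} =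
      cnt univ x (k - 1) 1 := by
    unfold cnt
    congr 1
    apply filter_congr
    intro R _
    have : ∑ i ∈ R ∩ A, x i = ∑ i ∈ R, x i := by
      apply sum_subset inter_subset_left
      intro i hi hi'
      apply h0
      intro h
      exact hi' (mem_inter.2 ⟨hi, h⟩)
    rw [this]
  rw [h3] at h2
  have h4 : (#(univ \ A) : ℝ) = (n : ℝ) - #A := by
    have h := card_sdiff_add_card_eq_card (subset_univ A)
    rw [card_univ, Fintype.card_fin] at h
    have : ((#(univ \ A) + #A : ℕ) : ℝ) = n := by exact_mod_cast h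
    push_cast at this
    linarith
  have h5 : (cnt univ x k 1 : ℝ) ≤ cnt A x k 1 + #(univ \ A) * cnt univ x (k - 1) 1 := by
    exact_mod_cast h1
  have h6 : (0 : ℝ) ≤ #(univ \ A) := Nat.cast_nonneg _
  calc (cnt univ x k 1 : ℝ) * (#A).choose (k - 1)
      ≤ (cnt A x k 1 + #(univ \ A) * cnt univ x (k - 1) 1) * (#A).choose (k - 1) :=
        mul_le_mul_of_nonneg_right h5 (Nat.cast_nonneg _)
    _ = (cnt A x k 1 : ℝ) * (#A).choose (k - 1) +
        #(univ \ A) * (cnt univ x (k - 1) 1 * (#A).choose (k - 1)) := by ring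
    _ ≤ (cnt A x k 1 : ℝ) * (#A).choose (k - 1) +
        #(univ \ A) * (cnt A x (k - 1) 1 * n.choose (k - 1)) :=
        add_le_add_right (mul_le_mul_of_nonneg_left h2 h6) _
    _ = _ := by rw [h4]; ring

end Pool.Agent.Helper40.OT
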