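import Mathlib

/-!
# Module HI1: random sequences hit every large set often
-/

set_option autoImplicit false

open Finset
open scoped Classical

namespace OT

noncomputable section

theorem hitting_one {P : Type} [Fintype P] [Nonempty P] (G : Finset P) (γ : ℝ)
    (hγ : 0 < γ) (hG : γ * (Fintype.card P : ℝ) ≤ (G.card : ℝ)) (s : ℕ) :
    ((univ.filter fun x : Fin s → P =>
      ((univ.filter fun j => x j ∈ G).card : ℝ) < γ / 4 * s).card : ℝ) ≤
    Real.exp (-(γ * s / 8)) * (Fintype.card P : ℝ) ^ s := by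
  set n : ℝ := (Fintype.card P : ℝ) with hn
  have hn0 : 0 < n := by rw [hn]; exact_mod_cast Fintype.card_pos
  have he : Real.exp (-1) ≤ 1 / 2 := by
    rw [Real.exp_neg, one_div]
    apply inv_anti₀ (by norm_num)
    have := Real.add_one_le_exp (1 : ℝ)
    linarith
  have hGn : (G.card : ℝ) ≤ n := by rw [hn]; exact_mod_cast Finset.card_le_univ G
  -- the exponential sum
  have hsum : ∑ x : Fin s → P, Real.exp (-((univ.filter fun j => x j ∈ G).card : ℝ)) ≤
      (n * (1 - γ / 2)) ^ s := by
    have h1 : ∀ x : Fin s → P, Real.exp (-((univ.filter fun j => x j ∈ G).card : ℝ)) =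
        ∏ j, (if x j ∈ G then Real.exp (-1) else 1) := by
      intro x
      rw [Finset.prod_ite, Finset.prod_const, Finset.prod_const_one, mul_one, ← Real.exp_nat_mul]
      congr 1
      ring
    rw [Finset.sum_congr rfl (fun x _ => h1 x)]
    have h2 : ∑ x : Fin s → P, ∏ j, (if x j ∈ G then Real.exp (-1) else 1) =
        ∏ _j : Fin s, ∑ y : P, (if y ∈ G then Real.exp (-1) else 1) := by
      rw [Finset.prod_univ_sum, Fintype.piFinset_univ]
    rw [h2, Finset.prod_const, Finset.card_univ, Fintype.card_fin]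
    have h3 : ∑ y : P, (if y ∈ G then Real.exp (-1) else 1) ≤ n * (1 - γ / 2) := by
      have h4 : ∀ y : P, (if y ∈ G then Real.exp (-1) else 1) ≤
          1 - (if y ∈ G then (1 / 2 : ℝ) else 0) := by
        intro y
        split_ifs
        · linarith
        · linarith
      refine (Finset.sum_le_sum (fun y _ => h4 y)).trans ?_
      rw [Finset.sum_sub_distrib]
      simp only [Finset.sum_const, nsmul_eq_mul, mul_one, Finset.card_univ, Finset.sum_ite_mem,
        Finset.univ_inter]
      rw [← hn]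
      nlinarith
    apply pow_le_pow_left₀ _ h3
    apply Finset.sum_nonneg; intro y _
    split_ifs
    · exact (Real.exp_pos _).le
    · norm_num
  have hbad : ∀ x ∈ univ.filter (fun x : Fin s → P =>
      ((univ.filter fun j => x j ∈ G).card : ℝ) < γ / 4 * s),
      (1 : ℝ) ≤ Real.exp (γ / 4 * s) *
        Real.exp (-((univ.filter fun j => x j ∈ G).card : ℝ)) := by
    intro x hx
    rw [Finset.mem_filter] at hx
    rw [← Real.exp_add]
    apply Real.one_le_exp
    linarith [hx.2]
  have h5 : ((univ.filter fun x : Fin s → P =>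
      ((univ.filter fun j => x j ∈ G).card : ℝ) < γ / 4 * s).card : ℝ) ≤
      Real.exp (γ / 4 * s) * (n * (1 - γ / 2)) ^ s := by
    calc ((univ.filter fun x : Fin s → P =>
          ((univ.filter fun j => x j ∈ G).card : ℝ) < γ / 4 * s).card : ℝ) =
        ∑ _x ∈ univ.filter (fun x : Fin s → P =>
          ((univ.filter fun j => x j ∈ G).card : ℝ) < γ / 4 * s), (1 : ℝ) := by simp
      _ ≤ ∑ x ∈ univ.filter (fun x : Fin s → P =>
          ((univ.filter fun j => x j ∈ G).card : ℝ) < γ / 4 * s), Real.exp (γ / 4 * s) *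
            Real.exp (-((univ.filter fun j => x j ∈ G).card : ℝ)) := Finset.sum_le_sum hbad
      _ ≤ ∑ x : Fin s → P, Real.exp (γ / 4 * s) *
            Real.exp (-((univ.filter fun j => x j ∈ G).card : ℝ)) :=
          Finset.sum_le_sum_of_subset_of_nonneg (Finset.subset_univ _)
            (fun x _ _ => mul_nonneg (Real.exp_pos _).le (Real.exp_pos _).le)
      _ ≤ _ := by
          rw [← Finset.mul_sum]
          exact mul_le_mul_of_nonneg_left hsum (Real.exp_pos _).le
  refine h5.trans ?_
  have hγn : γ ≤ 1 := by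
    have : γ * n ≤ 1 * n := by linarith
    exact le_of_mul_le_mul_right this hn0
  have h6 : (1 - γ / 2) ^ s ≤ Real.exp (-(γ / 2 * s)) := by
    have h7 : 1 - γ / 2 ≤ Real.exp (-(γ / 2)) := by
      have := Real.add_one_le_exp (-(γ / 2))
      linarith
    calc (1 - γ / 2) ^ s ≤ (Real.exp (-(γ / 2))) ^ s :=
          pow_le_pow_left₀ (by linarith) h7 _
      _ = Real.exp (-(γ / 2 * s)) := by
          rw [← Real.exp_nat_mul]; congr 1; ring
  rw [mul_pow]
  calc Real.exp (γ / 4 * s) * (n ^ s * (1 - γ / 2) ^ s) ≤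
      Real.exp (γ / 4 * s) * (n ^ s * Real.exp (-(γ / 2 * s))) := by
        apply mul_le_mul_of_nonneg_left _ (Real.exp_pos _).le
        exact mul_le_mul_of_nonneg_left h6 (by positivity)
    _ = Real.exp (-(γ / 4 * s)) * n ^ s := by
        rw [mul_comm (n ^ s), ← mul_assoc, ← Real.exp_add]
        congr 2
        ring
    _ ≤ Real.exp (-(γ * s / 8)) * n ^ s := by
        apply mul_le_mul_of_nonneg_right _ (by positivity)
        apply Real.exp_le_exp.2
        have : (0 : ℝ) ≤ γ * s := mul_nonneg hγ.le (Nat.cast_nonneg _)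
        linarith

theorem hitting {P T : Type} [Fintype P] [Nonempty P] [Fintype T] (G : T → Finset P) (γ : ℝ)
    (hγ : 0 < γ) (hγ1 : γ ≤ 1) (hG : ∀ t, γ * (Fintype.card P : ℝ) ≤ ((G t).card : ℝ)) (s : ℕ) :
    ((univ.filter fun x : Fin s → P =>
      ∃ t, ((univ.filter fun j => x j ∈ G t).card : ℝ) < γ / 4 * s).card : ℝ) ≤
    (Fintype.card T : ℝ) * Real.exp (-(γ * s / 8)) * (Fintype.card P : ℝ) ^ s := by
  have h1 : (univ.filter fun x : Fin s → P =>
      ∃ t, ((univ.filter fun j => x j ∈ G t).card : ℝ) < γ / 4 * s) ⊆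
      univ.biUnion (fun t : T => univ.filter fun x : Fin s → P =>
        ((univ.filter fun j => x j ∈ G t).card : ℝ) < γ / 4 * s) := by
    intro x hx
    rw [Finset.mem_filter] at hx
    obtain ⟨_, t, ht⟩ := hx
    rw [Finset.mem_biUnion]
    exact ⟨t, Finset.mem_univ _, Finset.mem_filter.2 ⟨Finset.mem_univ _, ht⟩⟩
  have h2 := (Finset.card_le_card h1).trans Finset.card_biUnion_le
  have h3 : ((univ.filter fun x : Fin s → P =>
      ∃ t, ((univ.filter fun j => x j ∈ G t).card : ℝ) < γ / 4 * s).card : ℝ) ≤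
      ∑ t : T, ((univ.filter fun x : Fin s → P =>
        ((univ.filter fun j => x j ∈ G t).card : ℝ) < γ / 4 * s).card : ℝ) := by
    exact_mod_cast h2
  refine h3.trans ((Finset.sum_le_sum (fun t _ => hitting_one (G t) γ hγ (hG t) s)).trans ?_)
  rw [Finset.sum_const, nsmul_eq_mul, Finset.card_univ, mul_assoc]

end

end OT
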